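import Pool.Agent.Helper67.R6.Fam

/-! # Row GOOD of the family sheet of rank six -/

set_option autoImplicit false

namespace Pool.Helper67.R6

private theorem fin6_two (i j k : Fin 6) (hij : i ≠ j) (hik : i ≠ k) (hjk : j ≠ k) :
    (i : ℕ) % 3 ≠ (j : ℕ) % 3 ∨ (i : ℕ) % 3 ≠ (k : ℕ) % 3 := by
  revert i j k; decide

private theorem dvd_big_zero {q : ℕ} {a B : ℤ} (e : ℕ) (hd : (q : ℤ) ^ e ∣ a)
    (ha : |a| ≤ B) (hB : B < (q : ℤ) ^ e) : a = 0 := by
  by_contra h0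
  have h1 : |(q : ℤ) ^ e| ≤ |a| := by
    rcases hd with ⟨c, hc⟩
    have hc0 : c ≠ 0 := by
      rintro rfl
      exact h0 (by rw [hc, mul_zero])
    rw [hc, abs_mul]
    have : 1 ≤ |c| := Int.one_le_abs hc0
    nlinarith [abs_nonneg ((q : ℤ) ^ e)]
  have h2 : (q : ℤ) ^ e ≤ |(q : ℤ) ^ e| := le_abs_self _
  linarith

theorem st_GOOD (hREL : ST_REL) (hCERT : ST_CERT) (hBND : ST_BND) : ST_GOOD := by
  obtain ⟨CB, hCB, hB⟩ := hBND
  refine ⟨CB, ?_⟩
  intro C hC m hm T hT hG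
  obtain ⟨hcong, hY, -, -, -, hA, hBb⟩ := hB m hm T hT
  obtain ⟨hdisc, hAB, hYp, -⟩ := hCERT _ hcong
  obtain ⟨hYU, -, -, -, -⟩ := hREL _ hcong
  have hCBi : (1 : ℤ) ≤ (CB : ℤ) := by exact_mod_cast hCB
  have hCi : (CB : ℤ) ≤ (C : ℤ) := by exact_mod_cast hC
  have hC1 : (1 : ℤ) ≤ (C : ℤ) := le_trans hCBi hCi
  have hmi : (1 : ℤ) ≤ (m : ℤ) := by exact_mod_cast hm
  have hm2 : (0 : ℤ) < (m : ℤ) ^ 2 := by positivity
  -- part two
  have P2 : ∀ (n : ℤ) (i j k : Fin 6), i ≠ j → i ≠ k → j ≠ k → n ∣ YY (ww m T) i →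
      n ∣ YY (ww m T) j → n ∣ YY (ww m T) k → |n| ≤ 1 := by
    intro n i j k hij hik hjk hi hj hk
    by_contra hn
    have hn1 : n.natAbs ≠ 1 := by
      intro h1
      apply hn
      rw [Int.abs_eq_natAbs, h1]
      norm_num
    obtain ⟨q, hq, hqn⟩ := Nat.exists_prime_and_dvd hn1
    have hqn' : (q : ℤ) ∣ n := Int.natCast_dvd.mpr hqn
    have qi := hqn'.trans hi
    have qj := hqn'.trans hj
    have qk := hqn'.trans hk
    have hqQ : QQ < q := by
      by_contra hle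
      exact hYp q hq (not_lt.mp hle) i j k hij hik hjk ⟨qi, qj, qk⟩
    have hqle : q ≤ C * m ^ 2 := by
      have h1 : (q : ℤ) ≤ YY (ww m T) i := Int.le_of_dvd (hY i).1 qi
      have h2 := (hY i).2
      have h3 : (CB : ℤ) * (m : ℤ) ^ 2 ≤ (C : ℤ) * (m : ℤ) ^ 2 :=
        mul_le_mul_of_nonneg_right hCi hm2.le
      have h4 : (q : ℤ) ≤ (C : ℤ) * (m : ℤ) ^ 2 := by linarith
      exact_mod_cast h4
    have hgd := (hG q hq hqQ hqle).2
    rcases fin6_two i j k hij hik hjk with h | h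
    · exact hgd i j h ⟨qi, qj⟩
    · exact hgd i k h ⟨qi, qk⟩
  refine ⟨?_, P2, ?_⟩
  · -- reduced
    rintro q hq ⟨h4, h6⟩
    have qA : (q : ℤ) ∣ aA (ww m T) := (dvd_pow_self (q : ℤ) (by norm_num : (4 : ℕ) ≠ 0)).trans h4
    have qB : (q : ℤ) ∣ aB (ww m T) := (dvd_pow_self (q : ℤ) (by norm_num : (6 : ℕ) ≠ 0)).trans h6
    have hqQ : QQ < q := by
      by_contra hle
      exact hAB q hq (not_lt.mp hle) ⟨qA, qB⟩
    have hqgt : C * m ^ 2 < q := by
      by_contra hle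
      exact (hG q hq hqQ (not_lt.mp hle)).1 ⟨qA, qB⟩
    have hqgt' : (C : ℤ) * (m : ℤ) ^ 2 < (q : ℤ) := by exact_mod_cast hqgt
    have hpos : (0 : ℤ) ≤ (C : ℤ) * (m : ℤ) ^ 2 :=
      mul_nonneg (le_trans zero_le_one hC1) hm2.le
    have e4 : ((C : ℤ) * (m : ℤ) ^ 2) ^ 4 < (q : ℤ) ^ 4 :=
      pow_lt_pow_left₀ hqgt' hpos (by norm_num)
    have e6 : ((C : ℤ) * (m : ℤ) ^ 2) ^ 6 < (q : ℤ) ^ 6 :=
      pow_lt_pow_left₀ hqgt' hpos (by norm_num)
    have c4 : (CB : ℤ) ≤ (C : ℤ) ^ 4 := le_trans hCi (le_self_pow₀ hC1 (by norm_num))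
    have c6 : (CB : ℤ) ≤ (C : ℤ) ^ 6 := le_trans hCi (le_self_pow₀ hC1 (by norm_num))
    have b4 : (CB : ℤ) * (m : ℤ) ^ 8 ≤ ((C : ℤ) * (m : ℤ) ^ 2) ^ 4 := by
      have : ((C : ℤ) * (m : ℤ) ^ 2) ^ 4 = (C : ℤ) ^ 4 * (m : ℤ) ^ 8 := by ring
      rw [this]
      exact mul_le_mul_of_nonneg_right c4 (by positivity)
    have b6 : (CB : ℤ) * (m : ℤ) ^ 12 ≤ ((C : ℤ) * (m : ℤ) ^ 2) ^ 6 := by
      have : ((C : ℤ) * (m : ℤ) ^ 2) ^ 6 = (C : ℤ) ^ 6 * (m : ℤ) ^ 12 := by ring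
      rw [this]
      exact mul_le_mul_of_nonneg_right c6 (by positivity)
    have zA : aA (ww m T) = 0 := dvd_big_zero 4 h4 hA (lt_of_le_of_lt b4 e4)
    have zB : aB (ww m T) = 0 := dvd_big_zero 6 h6 hBb (lt_of_le_of_lt b6 e6)
    apply hdisc
    rw [zA, zB]
    norm_num
  · -- Pluecker coordinates
    intro q hq hq2
    by_contra hall
    push Not at hall
    have hcop : IsCoprime (q : ℤ) 2 := by
      rw [Int.isCoprime_iff_gcd_eq_one]
      have h1 : Nat.Coprime q 2 :=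
        (Nat.coprime_primes hq Nat.prime_two).mpr (by omega)
      simpa [Int.gcd] using h1
    have hU : ∀ i, (q : ℤ) ∣ U (ww m T) i := by
      intro i
      fin_cases i
      · simpa [U, pp] using hall 0
      · simpa [U, pp] using hall 1
      · have := (hall 2).mul_left 4
        simpa [U, pp] using this
    have hV : ∀ i, (q : ℤ) ∣ V (ww m T).2 i := by
      intro i
      fin_cases i
      · have := (hall 3).mul_left 4
        simpa [V, pp] using this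
      · have := (hall 4).mul_left 5
        simpa [V, pp] using this
      · have := (hall 5).mul_left 5
        simpa [V, pp] using this
    obtain ⟨y0, y1, y2, -, -, -⟩ := hYU
    have k0 : (q : ℤ) ∣ YY (ww m T) 0 := by
      apply hcop.dvd_of_dvd_mul_left
      rw [y0]
      exact dvd_add (hU 0) (hV 0)
    have k1 : (q : ℤ) ∣ YY (ww m T) 1 := by
      apply hcop.dvd_of_dvd_mul_left
      rw [y1]
      exact dvd_add (hU 1) (hV 1)
    have k2 : (q : ℤ) ∣ YY (ww m T) 2 := by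
      apply hcop.dvd_of_dvd_mul_left
      rw [y2]
      exact dvd_add (hU 2) (hV 2)
    have hfin := P2 (q : ℤ) 0 1 2 (by decide) (by decide) (by decide) k0 k1 k2
    rw [abs_of_nonneg (by positivity)] at hfin
    have : q ≤ 1 := by exact_mod_cast hfin
    omega

end Pool.Helper67.R6
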